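import Mathlib
import Pool.Agent.H810R2.BAb

set_option autoImplicit false

namespace Pool.Agent.Results.MP_d61c0a_an.OnePointIdeal

/-- The closed Euclidean unit ball `B̄` of `ℂⁿ`. -/
def closedUnitBall (n : ℕ) : Set (EuclideanSpace ℂ (Fin n)) := {z | ‖z‖ ≤ 1}

/-- The open Euclidean unit ball `B` of `ℂⁿ`. -/
def openUnitBall (n : ℕ) : Set (EuclideanSpace ℂ (Fin n)) := {z | ‖z‖ < 1}

/-- `F` is holomorphic in the open unit ball. -/
def IsHolInBall (n : ℕ) (F : EuclideanSpace ℂ (Fin n) → ℂ) : Prop :=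
  DifferentiableOn ℂ F (openUnitBall n)

/-- `f : B̄ → ℂ` is continuous on `B̄` and holomorphic in `B`. -/
def InBallAlgebra (n : ℕ) (f : closedUnitBall n → ℂ) : Prop :=
  Continuous f ∧ ∃ F : EuclideanSpace ℂ (Fin n) → ℂ, IsHolInBall n F ∧
    ∀ z : closedUnitBall n, z.1 ∈ openUnitBall n → F z.1 = f z

theorem InBallAlgebra.mul {n : ℕ} {f g : closedUnitBall n → ℂ} (hf : InBallAlgebra n f)
    (hg : InBallAlgebra n g) : InBallAlgebra n (f * g) := by
  obtain ⟨hc, F, hF, hFf⟩ := hf
  obtain ⟨hc', G, hG, hGg⟩ := hg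
  exact ⟨hc.mul hc', fun z => F z * G z, hF.mul hG, fun z hz => by simp [hFf z hz, hGg z hz]⟩

theorem InBallAlgebra.add {n : ℕ} {f g : closedUnitBall n → ℂ} (hf : InBallAlgebra n f)
    (hg : InBallAlgebra n g) : InBallAlgebra n (f + g) := by
  obtain ⟨hc, F, hF, hFf⟩ := hf
  obtain ⟨hc', G, hG, hGg⟩ := hg
  exact ⟨hc.add hc', fun z => F z + G z, hF.add hG, fun z hz => by simp [hFf z hz, hGg z hz]⟩

theorem InBallAlgebra.one {n : ℕ} : InBallAlgebra n 1 :=
  ⟨continuous_const, fun _ => 1, differentiableOn_const _, fun _ _ => rfl⟩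

theorem InBallAlgebra.zero {n : ℕ} : InBallAlgebra n 0 :=
  ⟨continuous_const, fun _ => 0, differentiableOn_const _, fun _ _ => rfl⟩

theorem InBallAlgebra.neg {n : ℕ} {f : closedUnitBall n → ℂ} (hf : InBallAlgebra n f) :
    InBallAlgebra n (-f) := by
  obtain ⟨hc, F, hF, hFf⟩ := hf
  exact ⟨hc.neg, fun z => - F z, hF.neg, fun z hz => by simp [hFf z hz]⟩

/-- The ball algebra as a subring of the ring of all functions on the closed ball. -/
def ballSubring (n : ℕ) : Subring (closedUnitBall n → ℂ) where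
  carrier := {f | InBallAlgebra n f}
  mul_mem' := InBallAlgebra.mul
  one_mem' := InBallAlgebra.one
  add_mem' := InBallAlgebra.add
  zero_mem' := InBallAlgebra.zero
  neg_mem' := InBallAlgebra.neg

/-- The ball algebra `A(B)`: all complex functions that are continuous on the closed unit ball of
`ℂⁿ` and holomorphic in the open unit ball. -/
def BallAlgebra (n : ℕ) : Type := ballSubring n

/-- Pointwise ring operations on `A(B)`. -/
instance (n : ℕ) : CommRing (BallAlgebra n) := (ballSubring n).toCommRing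

/-- The value of `f ∈ A(B)` at a point of the closed ball. -/
def value {n : ℕ} (f : BallAlgebra n) (z : closedUnitBall n) : ℂ := f.1 z

/-- The norm closure of an ideal `I`: all `f ∈ A(B)` such that for every `ε > 0` some `g ∈ I` has
`‖f - g‖ ≤ ε` in the supremum norm. -/
def normClosure {n : ℕ} (I : Ideal (BallAlgebra n)) : Set (BallAlgebra n) :=
  {f | ∀ ε : ℝ, 0 < ε → ∃ g ∈ I, ∀ z : closedUnitBall n, ‖value f z - value g z‖ ≤ ε}

/-- A closed ideal: one that equals its norm closure. -/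
def IsClosedIdeal {n : ℕ} (J : Ideal (BallAlgebra n)) : Prop := normClosure J = {f | f ∈ J}

/-- The zero set `Z(J)`: the points of the closed ball at which every member of `J` vanishes. -/
def zeroSet {n : ℕ} (J : Ideal (BallAlgebra n)) : Set (closedUnitBall n) :=
  {w | ∀ f ∈ J, value f w = 0}

open Metric Pool.Agent.H810R2.BAb

lemma mem_iff {n : ℕ} (z : EuclideanSpace ℂ (Fin n)) :
    z ∈ closedBall (0 : EuclideanSpace ℂ (Fin n)) 1 ↔ z ∈ closedUnitBall n :=
  mem_closedBall_zero_iff

lemma ball_eq (n : ℕ) : ball (0 : EuclideanSpace ℂ (Fin n)) 1 = openUnitBall n := by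
  ext z; exact mem_ball_zero_iff

/-- comparison with the model used in the proof -/
noncomputable def toB {n : ℕ} : BallAlgebra n ≃+* ballAlgebra n where
  toFun f := ⟨⟨fun z => f.1 ⟨z.1, (mem_iff _).mp z.2⟩, by
      have : Continuous (f.1 : closedUnitBall n → ℂ) := f.2.1
      exact this.comp (Continuous.subtype_mk continuous_subtype_val _)⟩, by
    obtain ⟨F, hF, hFf⟩ := f.2.2
    exact ⟨F, by rw [ball_eq]; exact hF, fun z hz => hFf ⟨z.1, _⟩ hz⟩⟩
  invFun f := ⟨fun z => f.1 ⟨z.1, (mem_iff _).mpr z.2⟩, by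
    refine ⟨(map_continuous f.1).comp (Continuous.subtype_mk continuous_subtype_val _), ?_⟩
    obtain ⟨F, hF, hFf⟩ := f.2
    exact ⟨F, by rw [IsHolInBall, ← ball_eq]; exact hF, fun z hz => hFf ⟨z.1, _⟩ hz⟩⟩
  left_inv f := rfl
  right_inv f := rfl
  map_mul' f g := rfl
  map_add' f g := rfl

lemma value_toB {n : ℕ} (f : BallAlgebra n) (z : ClosedUnitBall n) :
    (toB f).1 z = value f ⟨z.1, (mem_iff _).mp z.2⟩ := rfl

lemma mem_closure_toB {n : ℕ} (S : Set (ballAlgebra n)) (f : BallAlgebra n) :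
    toB f ∈ closure S ↔ ∀ ε : ℝ, 0 < ε → ∃ g : BallAlgebra n, toB g ∈ S ∧
      ∀ z : closedUnitBall n, ‖value f z - value g z‖ ≤ ε := by
  have key : toB f ∈ closure S ↔ (toB f).1 ∈ closure (Subtype.val '' S) := closure_subtype
  rw [key, Metric.mem_closure_iff]
  constructor
  · intro h ε hε
    obtain ⟨_, ⟨g, hg, rfl⟩, hd⟩ := h ε hε
    refine ⟨toB.symm g, by simpa using hg, fun z => ?_⟩
    have h1 := (ContinuousMap.dist_le hε.le).mp hd.le ⟨z.1, (mem_iff _).mpr z.2⟩
    rw [dist_eq_norm] at h1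
    exact h1
  · intro h ε hε
    obtain ⟨g, hg, hd⟩ := h (ε / 2) (by linarith)
    refine ⟨toB g, ⟨toB g, hg, rfl⟩, ?_⟩
    refine lt_of_le_of_lt ((ContinuousMap.dist_le (by linarith : 0 ≤ ε / 2)).mpr fun z => ?_)
      (by linarith)
    rw [dist_eq_norm]
    exact hd ⟨z.1, (mem_iff _).mp z.2⟩

/-- **Answer to Q1: yes.**  For every `n ≥ 2` and every point `ζ` of the unit sphere of `ℂⁿ` there
is a closed ideal `J` of the ball algebra whose zero set is exactly `{ζ}` and which is not the norm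
closure of any finitely generated ideal. -/
theorem result (n : ℕ) (hn : 2 ≤ n) (ζ : EuclideanSpace ℂ (Fin n)) (hζ : ‖ζ‖ = 1) :
    ∃ J : Ideal (BallAlgebra n), IsClosedIdeal J ∧ zeroSet J = {w | w.1 = ζ} ∧
      ∀ I : Ideal (BallAlgebra n), I.FG → normClosure I ≠ {f | f ∈ J} := by
  obtain ⟨J, hJ1, hJ2, hJ3⟩ := main_result n hn ζ hζ
  refine ⟨J.comap (toB (n := n)).toRingHom, ?_, ?_, ?_⟩
  · ext f
    constructor
    · intro (hf : ∀ ε : ℝ, 0 < ε → ∃ g ∈ J.comap (toB (n := n)).toRingHom, _)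
      have h1 : toB f ∈ closure (J : Set (ballAlgebra n)) := by
        rw [mem_closure_toB]
        intro ε hε
        obtain ⟨g, hg, hgd⟩ := hf ε hε
        exact ⟨g, hg, hgd⟩
      have h2 : toB f ∈ (J : Set (ballAlgebra n)) := by rw [← hJ1]; exact h1
      exact h2
    · intro hf ε hε
      exact ⟨f, hf, fun z => by rw [sub_self, norm_zero]; exact hε.le⟩
  · ext w
    constructor
    · intro (hw : ∀ f ∈ J.comap (toB (n := n)).toRingHom, value f w = 0)
      have h1 : (⟨w.1, (mem_iff _).mpr w.2⟩ : ClosedUnitBall n) ∈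
          Pool.Agent.H810R2.BAb.zeroSet J := by
        intro f hf
        exact hw (toB.symm f) (by
          change toB (toB.symm f) ∈ J
          rw [RingEquiv.apply_symm_apply]; exact hf)
      rw [hJ2] at h1
      exact h1
    · intro hw f hf
      have h1 : (⟨w.1, (mem_iff _).mpr w.2⟩ : ClosedUnitBall n) ∈
          Pool.Agent.H810R2.BAb.zeroSet J := by
        rw [hJ2]; exact hw
      exact h1 (toB f) hf
  · intro I hI heq
    apply hJ3 (I.map (toB (n := n)).toRingHom) (hI.map _)
    ext f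
    obtain ⟨f, rfl⟩ := toB.surjective f
    have hmap : ∀ g : BallAlgebra n, toB g ∈ (I.map (toB (n := n)).toRingHom : Set (ballAlgebra n)) ↔
        g ∈ I := by
      intro g
      constructor
      · intro hg
        have hg' : toB g ∈ I.map (toB (n := n)).toRingHom := hg
        obtain ⟨x, hx, hxg⟩ := (Ideal.mem_map_iff_of_surjective (toB (n := n)).toRingHom
          toB.surjective).mp hg'
        have : x = g := toB.injective hxg
        rwa [← this]
      · intro hg
        exact Ideal.mem_map_of_mem _ hg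
    constructor
    · intro h
      have h1 : f ∈ normClosure I := by
        intro ε hε
        obtain ⟨g, hg, hgd⟩ := (mem_closure_toB _ f).mp h ε hε
        exact ⟨g, (hmap g).mp hg, hgd⟩
      rw [heq] at h1
      exact h1
    · intro h
      have h1 : f ∈ normClosure I := by rw [heq]; exact h
      refine (mem_closure_toB _ f).mpr fun ε hε => ?_
      obtain ⟨g, hg, hgd⟩ := h1 ε hε
      exact ⟨g, (hmap g).mpr hg, hgd⟩

end Pool.Agent.Results.MP_d61c0a_an.OnePointIdeal
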